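import Mathlib

-- part MP_03ce49_co.Local
section

/-! Local structure of graphs without a cycle on `l + 1` vertices. -/

namespace Pool.Agent.MP_03ce49_co

open Finset

variable {V : Type*} [DecidableEq V] {G : SimpleGraph V}

/-- no cycle with `l + 1` vertices, in terms of lists. -/
def NoCyc (G : SimpleGraph V) (l : ℕ) : Prop :=
  ∀ (a : V) (L : List V), L.length = l → (a :: L).Nodup →
    List.IsChain G.Adj (a :: L ++ [a]) → False

omit [DecidableEq V] in
lemma clique_chain {K : Finset V} (hK : G.IsClique (K : Set V)) {L : List V}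
    (h : ∀ x ∈ L, x ∈ K) (hn : L.Nodup) : List.IsChain G.Adj L := by
  refine List.Pairwise.isChain ?_
  refine List.Pairwise.imp_of_mem ?_ hn
  intro a b ha hb hab
  exact hK (h a ha) (h b hb) hab

lemma ear {l : ℕ} (hG : NoCyc G l) {K : Finset V} (hK : G.IsNClique l K) {a b : V}
    (ha : a ∈ K) (hb : b ∈ K) (hab : a ≠ b) (P : List V) (hP : P.Nodup) (hPK : ∀ p ∈ P, p ∉ K)
    (h1 : 1 ≤ P.length) (h2 : P.length + 1 ≤ l) (hc : List.IsChain G.Adj (a :: P ++ [b])) :
    False := by
  have hcard : ((K.erase a).erase b).card + 2 = l := by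
    have e1 := card_erase_add_one ha
    have e2 := card_erase_add_one (mem_erase.mpr ⟨hab.symm, hb⟩ : b ∈ K.erase a)
    have := hK.card_eq
    omega
  obtain ⟨Q, hQ, hQc⟩ := exists_subset_card_eq (s := (K.erase a).erase b)
    (n := l - 1 - P.length) (by omega)
  have hQm : ∀ x ∈ Q.toList, x ∈ K ∧ x ≠ a ∧ x ≠ b := by
    intro x hx
    have := hQ (mem_toList.mp hx)
    simp only [mem_erase] at this
    tauto
  refine hG a (P ++ b :: Q.toList) (by simp [hQc]; omega) ?_ ?_
  · simp only [List.nodup_cons, List.mem_append, List.mem_cons, List.nodup_append]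
    refine ⟨?_, hP, ⟨fun h => (hQm b h).2.2 rfl, Q.nodup_toList⟩, ?_⟩
    · rintro (h | h | h)
      · exact hPK a h ha
      · exact hab h
      · exact (hQm a h).2.1 rfl
    · rintro x hx y (rfl | hy) rfl
      · exact hPK _ hx hb
      · exact hPK _ hx (hQm _ hy).1
  · have e : a :: (P ++ b :: Q.toList) ++ [a] = (a :: P) ++ b :: (Q.toList ++ [a]) := by simp
    rw [e, List.isChain_split]
    refine ⟨hc, clique_chain hK.isClique ?_ ?_⟩
    · intro x hx
      simp only [List.mem_cons, List.mem_append, List.not_mem_nil, or_false] at hx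
      rcases hx with rfl | hx | rfl
      · exact hb
      · exact (hQm _ hx).1
      · exact ha
    · simp only [List.nodup_cons, List.mem_append, List.mem_cons, List.nodup_append]
      refine ⟨?_, Q.nodup_toList, by simp, ?_⟩
      · rintro (h | h | h)
        · exact (hQm b h).2.2 rfl
        · exact hab h.symm
        · simp at h
      · rintro x hx y (rfl | hy) rfl
        · exact (hQm _ hx).2.1 rfl
        · simp at hy

/-- a path in `W` starting at `c` with `n` further vertices. -/
def Long (G : SimpleGraph V) (W : Finset V) (c : V) (n : ℕ) : Prop :=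
  ∃ L : List V, L.length = n ∧ (c :: L).Nodup ∧ (∀ x ∈ c :: L, x ∈ W) ∧
    List.IsChain G.Adj (c :: L)

open Classical in
lemma short_clique (t : ℕ) : ∀ (W : Finset V) (c : V), c ∈ W → ¬ Long G W c t →
    (∀ w ∈ W, t ≤ (W.filter (G.Adj w)).card + 1) →
    ∃ K ⊆ W, c ∈ K ∧ G.IsNClique t K ∧ ∀ w ∈ K, w ≠ c → ∀ y ∈ W, G.Adj w y → y ∈ K := by
  induction t with
  | zero =>
    intro W c hc hL
    exact absurd ⟨[], rfl, by simp, by simpa using hc, by simp⟩ hL
  | succ s ih =>
    intro W c hc hL hdeg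
    rcases Nat.eq_zero_or_pos s with rfl | hs
    · refine ⟨{c}, by simpa using hc, by simp, by simp, ?_⟩
      intro w hw hwc
      exact absurd (mem_singleton.mp hw) hwc
    obtain ⟨c', hc'⟩ := card_pos.mp (show 0 < (W.filter (G.Adj c)).card by
      have := hdeg c hc; omega)
    obtain ⟨hc'W, hcc'⟩ := mem_filter.mp hc'
    have hdeg' : ∀ w, (W.filter (G.Adj w)).card ≤ ((W.erase c).filter (G.Adj w)).card + 1 := by
      intro w
      rw [filter_erase]
      have := pred_card_le_card_erase (s := W.filter (G.Adj w)) (a := c)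
      omega
    obtain ⟨K, hKW, hc'K, hK, hcl⟩ := ih (W.erase c) c' (mem_erase.mpr ⟨hcc'.ne', hc'W⟩) (by
        rintro ⟨L, h1, h2, h3, h4⟩
        refine hL ⟨c' :: L, by simp [h1], ?_, ?_, ?_⟩
        · exact List.nodup_cons.mpr ⟨fun h => (mem_erase.mp (h3 c h)).1 rfl, h2⟩
        · intro x hx
          rcases List.mem_cons.mp hx with rfl | hx
          · exact hc
          · exact mem_of_mem_erase (h3 x hx)
        · exact List.isChain_cons_cons.mpr ⟨hcc', h4⟩)
      (fun w hw => by
        have := hdeg w (mem_of_mem_erase hw)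
        have := hdeg' w
        omega)
    have hcK : c ∉ K := fun h => (mem_erase.mp (hKW h)).1 rfl
    have hadj : ∀ w ∈ K, G.Adj c w := by
      intro w hw
      by_cases hwc : w = c'
      · exact hwc ▸ hcc'
      by_contra hna
      have hsub : W.filter (G.Adj w) ⊆ K.erase w := by
        intro y hy
        obtain ⟨hyW, hwy⟩ := mem_filter.mp hy
        refine mem_erase.mpr ⟨hwy.ne', hcl w hw hwc y (mem_erase.mpr ⟨?_, hyW⟩) hwy⟩
        rintro rfl
        exact hna hwy.symm
      have h1 := card_le_card hsub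
      have h2 := card_erase_add_one hw
      have h3 := hK.card_eq
      have h4 := hdeg w (mem_of_mem_erase (hKW hw))
      omega
    have hK' : G.IsNClique (s + 1) (insert c K) := hK.insert hadj
    refine ⟨insert c K, insert_subset hc (hKW.trans (erase_subset _ _)), mem_insert_self _ _,
      hK', ?_⟩
    intro w hw hwc y hyW hwy
    have hwK := (mem_insert.mp hw).resolve_left hwc
    by_contra hy
    have hyc : y ≠ c := fun h => hy (h ▸ mem_insert_self _ _)
    have hyK : y ∉ K := fun h => hy (mem_insert_of_mem h)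
    have hm : ∀ x ∈ (K.erase w).toList, x ∈ K ∧ x ≠ w := by
      intro x hx
      have := mem_erase.mp (mem_toList.mp hx)
      tauto
    refine hL ⟨(K.erase w).toList ++ [w, y], ?_, ?_, ?_, ?_⟩
    · have h2 := card_erase_add_one hwK
      have h3 := hK.card_eq
      simp only [List.length_append, length_toList, List.length_cons, List.length_nil]
      omega
    · simp only [List.nodup_cons, List.mem_append, List.mem_cons, List.nodup_append]
      refine ⟨?_, nodup_toList _, ⟨?_, by simp, by simp⟩, ?_⟩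
      · rintro (h | h | h | h)
        · exact hcK (hm _ h).1
        · exact hwc h.symm
        · exact hyc h.symm
        · simp at h
      · simpa using hwy.ne
      · rintro x hx z (rfl | rfl | hz) rfl
        · exact (hm _ hx).2 rfl
        · exact hyK (hm _ hx).1
        · simp at hz
    · intro x hx
      simp only [List.mem_cons, List.mem_append, List.not_mem_nil, or_false] at hx
      rcases hx with rfl | hx | rfl | rfl
      · exact hc
      · exact mem_of_mem_erase (hKW (hm _ hx).1)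
      · exact mem_of_mem_erase (hKW hwK)
      · exact hyW
    · have e : c :: ((K.erase w).toList ++ [w, y]) = (c :: (K.erase w).toList) ++ w :: [y] := by
        simp
      rw [e, List.isChain_split]
      refine ⟨clique_chain hK'.isClique ?_ ?_, by simpa using hwy⟩
      · intro x hx
        simp only [List.mem_cons, List.mem_append, List.not_mem_nil, or_false] at hx
        rcases hx with (rfl | hx) | rfl
        · exact mem_insert_self _ _
        · exact mem_insert_of_mem (hm _ hx).1
        · exact hw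
      · simp only [List.cons_append, List.nodup_cons, List.mem_append, List.mem_cons,
          List.nodup_append]
        refine ⟨?_, nodup_toList _, by simp, ?_⟩
        · rintro (h | h | h)
          · exact hcK (hm _ h).1
          · exact hwc h.symm
          · simp at h
        · rintro x hx z (rfl | hz) rfl
          · exact (hm _ hx).2 rfl
          · simp at hz

omit [DecidableEq V] in
/-- a path on `l` vertices with both ends adjacent to `u` -/
lemma close_one {l : ℕ} (hG : NoCyc G l) {u c : V} {L : List V} (h1 : L.length + 1 = l)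
    (h2 : (c :: L).Nodup) (h3 : u ∉ c :: L) (h4 : List.IsChain G.Adj (c :: L)) (hc : G.Adj c u)
    (he : G.Adj ((c :: L).getLast (by simp)) u) : False := by
  refine hG u (c :: L) (by simpa using h1) (List.nodup_cons.mpr ⟨h3, h2⟩) ?_
  rw [List.cons_append, List.cons_append, List.isChain_cons_cons]
  refine ⟨hc.symm, ?_⟩
  rw [← List.cons_append]
  refine h4.append (by simp) ?_
  intro x hx y hy
  rw [List.getLast?_eq_some_getLast (by simp)] at hx
  simp only [Option.mem_def, Option.some.injEq, List.head?_cons] at hx hy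
  rw [← hx, ← hy]
  exact he

omit [DecidableEq V] in
/-- a path on `l - 1` vertices from a neighbour of `u` to a neighbour of `v` -/
lemma close_two {l : ℕ} (hG : NoCyc G l) {u v c : V} (huv : G.Adj u v) {L : List V}
    (h1 : L.length + 2 = l) (h2 : (c :: L).Nodup) (h3 : u ∉ c :: L) (h3' : v ∉ c :: L)
    (h4 : List.IsChain G.Adj (c :: L)) (hc : G.Adj c u)
    (he : G.Adj ((c :: L).getLast (by simp)) v) : False := by
  refine close_one hG (u := v) (c := u) (L := c :: L) (by simpa using h1)
    (List.nodup_cons.mpr ⟨h3, h2⟩) ?_ (List.isChain_cons_cons.mpr ⟨hc.symm, h4⟩) huv he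
  intro h
  rcases List.mem_cons.mp h with h | h
  · exact huv.ne' h
  · exact h3' h

end Pool.Agent.MP_03ce49_co

end

-- part MP_03ce49_co.Colour
section

/-! Colouring the union of the neighbourhoods of the two ends of an edge. -/

namespace Pool.Agent.MP_03ce49_co

open Finset

variable {V : Type*} [DecidableEq V] {G : SimpleGraph V}

/-- `f` properly colours `D` with colours below `n`. -/
def Col (G : SimpleGraph V) (D : Set V) (n : ℕ) (f : V → ℕ) : Prop :=
  (∀ x ∈ D, f x < n) ∧ ∀ x ∈ D, ∀ y ∈ D, G.Adj x y → f x ≠ f y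

open Classical in
lemma deg_erase (D : Finset V) (c w : V) :
    (D.filter (G.Adj w)).card ≤ ((D.erase c).filter (G.Adj w)).card + 1 := by
  rw [filter_erase]
  have := pred_card_le_card_erase (s := D.filter (G.Adj w)) (a := c)
  omega

open Classical in
lemma deg_erase' (D : Finset V) {c w : V} (h : ¬ (c ∈ D ∧ G.Adj w c)) :
    (D.filter (G.Adj w)).card = ((D.erase c).filter (G.Adj w)).card := by
  rw [filter_erase, erase_eq_of_notMem]
  simpa using h

open Classical in
lemma deg_le_of_sub {W K : Finset V} {w : V} (hw : w ∈ K) (h : ∀ y ∈ W, G.Adj w y → y ∈ K) :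
    (W.filter (G.Adj w)).card + 1 ≤ K.card := by
  rw [← card_erase_add_one hw]
  refine Nat.succ_le_succ (card_le_card fun y hy => ?_)
  obtain ⟨h1, h2⟩ := mem_filter.mp hy
  exact mem_erase.mpr ⟨h2.ne', h y h1 h2⟩

open Classical in
lemma clique_of_common {l : ℕ} (hl : 4 ≤ l) (hG : NoCyc G l) {u v : V} (huv : G.Adj u v)
    {D : Finset V} (hD : ∀ x ∈ D, G.Adj x u ∨ G.Adj x v)
    (hdeg : ∀ w ∈ D, l ≤ (D.filter (G.Adj w)).card + 1) {c : V} (hc : c ∈ D)
    (hcu : G.Adj c u) (hcv : G.Adj c v) : ∃ K ⊆ D, G.IsNClique l K := by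
  set W := (D.erase u).erase v with hW
  have hmem : ∀ x, x ∈ W ↔ x ≠ v ∧ x ≠ u ∧ x ∈ D := by simp [hW]
  obtain ⟨K, hKW, hcK, hK, hcl⟩ := short_clique (G := G) (l - 2) W c
    ((hmem c).mpr ⟨hcv.ne, hcu.ne, hc⟩) (by
      rintro ⟨L, h1, h2, h3, h4⟩
      have hu : u ∉ c :: L := fun h => ((hmem u).mp (h3 u h)).2.1 rfl
      have hv : v ∉ c :: L := fun h => ((hmem v).mp (h3 v h)).1 rfl
      rcases hD _ ((hmem _).mp (h3 _ (List.getLast_mem (l := c :: L) (by simp)))).2.2 with h | h
      · exact close_two hG huv.symm (by omega) h2 hv hu h4 hcv h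
      · exact close_two hG huv (by omega) h2 hu hv h4 hcu h)
    (fun w hw => by
      have h1 := hdeg w ((hmem w).mp hw).2.2
      have h2 := deg_erase (G := G) D u w
      have h3 := deg_erase (G := G) (D.erase u) v w
      rw [← hW] at h3
      omega)
  have key : ∀ w ∈ K, w ≠ c → (u ∈ D ∧ G.Adj w u) ∧ (v ∈ D.erase u ∧ G.Adj w v) := by
    intro w hw hwc
    have h0 := deg_le_of_sub hw (hcl w hw hwc)
    have h1 := hdeg w ((hmem w).mp (hKW hw)).2.2
    have h2 := deg_erase (G := G) D u w
    have h3 := deg_erase (G := G) (D.erase u) v w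
    have h4 := hK.card_eq
    rw [← hW] at h3
    constructor
    · by_contra h
      have := deg_erase' D h
      omega
    · by_contra h
      have := deg_erase' (D.erase u) h
      rw [← hW] at this
      omega
  obtain ⟨w, hw, hwc⟩ := exists_mem_ne (s := K) (by have := hK.card_eq; omega) c
  have hu : ∀ x ∈ K, G.Adj u x := fun x hx => by
    by_cases h : x = c
    · exact h ▸ hcu.symm
    · exact (key x hx h).1.2.symm
  have hv : ∀ x ∈ K, G.Adj v x := fun x hx => by
    by_cases h : x = c
    · exact h ▸ hcv.symm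
    · exact (key x hx h).2.2.symm
  have h1 := hK.insert hu
  have h2 := h1.insert (a := v) (fun x hx => by
    rcases mem_insert.mp hx with rfl | hx
    · exact huv.symm
    · exact hv x hx)
  refine ⟨_, ?_, (show l - 2 + 1 + 1 = l by omega) ▸ h2⟩
  exact insert_subset (mem_of_mem_erase (key w hw hwc).2.1) (insert_subset (key w hw hwc).1.1
    fun x hx => ((hmem x).mp (hKW hx)).2.2)

open Classical in
lemma clique_of_edge {l : ℕ} (hl : 4 ≤ l) (hG : NoCyc G l) {u v : V} (huv : G.Adj u v)
    {D : Finset V} (hD : ∀ x ∈ D, G.Adj x u ∨ G.Adj x v)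
    (hdeg : ∀ w ∈ D, l ≤ (D.filter (G.Adj w)).card + 1)
    (hno : ∀ c ∈ D, G.Adj c u → ¬ G.Adj c v) {x y : V} (hx : x ∈ D) (hy : y ∈ D)
    (hxy : G.Adj x y) (hxu : G.Adj x u) (hyu : G.Adj y u) : ∃ K ⊆ D, G.IsNClique l K := by
  have hxv : x ≠ v := by
    rintro rfl
    exact hno y hy hyu hxy.symm
  have hyv : y ≠ v := by
    rintro rfl
    exact hno x hx hxu hxy
  set W := ((D.erase u).erase v).erase x with hW
  have hmem : ∀ z, z ∈ W ↔ z ≠ x ∧ z ≠ v ∧ z ≠ u ∧ z ∈ D := by simp [hW]
  have hdeg2 : ∀ w ∈ D, l ≤ (((D.erase u).erase v).filter (G.Adj w)).card + 2 := by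
    intro w hw
    have h1 := hdeg w hw
    have h2 := deg_erase (G := G) D u w
    have h3 := deg_erase (G := G) (D.erase u) v w
    by_cases h : G.Adj w u
    · have := deg_erase' (G := G) (D.erase u) (c := v) (w := w) fun h' => hno w hw h h'.2
      omega
    · have := deg_erase' (G := G) D (c := u) (w := w) fun h' => h h'.2
      omega
  obtain ⟨K, hKW, hyK, hK, hcl⟩ := short_clique (G := G) (l - 2) W y
    ((hmem y).mpr ⟨hxy.ne', hyv, hyu.ne, hy⟩) (by
      rintro ⟨L, h1, h2, h3, h4⟩
      have hu : u ∉ y :: L := fun h => ((hmem u).mp (h3 u h)).2.2.1 rfl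
      have hv : v ∉ y :: L := fun h => ((hmem v).mp (h3 v h)).2.1 rfl
      have hx' : x ∉ y :: L := fun h => ((hmem x).mp (h3 x h)).1 rfl
      rcases hD _ ((hmem _).mp (h3 _ (List.getLast_mem (l := y :: L) (by simp)))).2.2.2 with h | h
      · refine close_one hG (u := u) (c := x) (L := y :: L) (by simp; omega)
          (List.nodup_cons.mpr ⟨hx', h2⟩) ?_ (List.isChain_cons_cons.mpr ⟨hxy, h4⟩) hxu h
        intro h'
        rcases List.mem_cons.mp h' with h' | h'
        · exact hxu.ne' h'
        · exact hu h'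
      · exact close_two hG huv (by omega) h2 hu hv h4 hyu h)
    (fun w hw => by
      have h1 := hdeg2 w ((hmem w).mp hw).2.2.2
      have h3 := deg_erase (G := G) ((D.erase u).erase v) x w
      rw [← hW] at h3
      omega)
  have h4 := hK.card_eq
  have hxK : ∀ w ∈ K, G.Adj x w := by
    intro w hw
    by_cases hwy : w = y
    · exact hwy ▸ hxy
    have h0 := deg_le_of_sub hw (hcl w hw hwy)
    have h1 := hdeg2 w ((hmem w).mp (hKW hw)).2.2.2
    by_contra h
    have := deg_erase' (G := G) ((D.erase u).erase v) (c := x) (w := w) fun h' => h h'.2.symm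
    rw [← hW] at this
    omega
  have hK1 := hK.insert hxK
  have hnv : ∀ w ∈ K, ¬ G.Adj w v := by
    intro w hw hwv
    have hm : ∀ z ∈ (K.erase w).toList ++ [w], z ∈ K := by
      intro z hz
      simp only [List.mem_append, mem_toList, List.mem_cons, List.not_mem_nil, or_false] at hz
      rcases hz with hz | rfl
      · exact mem_of_mem_erase hz
      · exact hw
    have hnd : (x :: ((K.erase w).toList ++ [w])).Nodup := by
      refine List.nodup_cons.mpr ⟨fun h => ((hmem x).mp (hKW (hm x h))).1 rfl, ?_⟩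
      refine List.nodup_append.mpr ⟨nodup_toList _, by simp, ?_⟩
      rintro a ha b hb rfl
      simp only [List.mem_cons, List.not_mem_nil, or_false] at hb
      exact (mem_erase.mp (mem_toList.mp ha)).1 hb
    refine close_two hG huv (c := x) (L := (K.erase w).toList ++ [w]) ?_ hnd ?_ ?_ ?_ hxu ?_
    · have := card_erase_add_one hw
      simp only [List.length_append, length_toList, List.length_cons, List.length_nil]
      omega
    · intro h
      rcases List.mem_cons.mp h with h | h
      · exact hxu.ne' h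
      · exact ((hmem u).mp (hKW (hm u h))).2.2.1 rfl
    · intro h
      rcases List.mem_cons.mp h with h | h
      · exact hxv h.symm
      · exact ((hmem v).mp (hKW (hm v h))).2.1 rfl
    · refine clique_chain hK1.isClique (fun z hz => ?_) hnd
      rcases List.mem_cons.mp hz with rfl | hz
      · exact mem_insert_self _ _
      · exact mem_insert_of_mem (hm z hz)
    · simpa using hwv
  obtain ⟨w, hw, hwy⟩ := exists_mem_ne (s := K) (by omega) y
  have huD : u ∈ D := by
    by_contra h
    have h0 := deg_le_of_sub hw (hcl w hw hwy)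
    have h1 := hdeg w ((hmem w).mp (hKW hw)).2.2.2
    have h2 := deg_erase' (G := G) D (c := u) (w := w) fun h' => h h'.1
    have h3 := deg_erase' (G := G) (D.erase u) (c := v) (w := w) fun h' => hnv w hw h'.2
    have h5 := deg_erase (G := G) ((D.erase u).erase v) x w
    rw [← hW] at h5
    omega
  have hK2 := hK1.insert (a := u) (fun z hz => by
    rcases mem_insert.mp hz with rfl | hz
    · exact hxu.symm
    · exact ((hD z ((hmem z).mp (hKW hz)).2.2.2).resolve_right (hnv z hz)).symm)
  refine ⟨_, ?_, (show l - 2 + 1 + 1 = l by omega) ▸ hK2⟩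
  exact insert_subset huD (insert_subset hx fun z hz => ((hmem z).mp (hKW hz)).2.2.2)

open Classical in
/-- a subset of the two neighbourhoods without an `l`-clique is `(l - 1)`-colourable -/
lemma col_of_no_clique {l : ℕ} (hl : 4 ≤ l) (hG : NoCyc G l) {u v : V} (huv : G.Adj u v)
    (D : Finset V) : (∀ x ∈ D, G.Adj x u ∨ G.Adj x v) → (∀ K ⊆ D, ¬ G.IsNClique l K) →
    ∃ f, Col G (D : Set V) (l - 1) f := by
  induction D using Finset.strongInduction with
  | H D ih =>
  intro hD hK
  by_cases hdeg : ∀ w ∈ D, l ≤ (D.filter (G.Adj w)).card + 1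
  · have hno : ∀ c ∈ D, G.Adj c u → ¬ G.Adj c v := by
      intro c hc h1 h2
      obtain ⟨K, h3, h4⟩ := clique_of_common hl hG huv hD hdeg hc h1 h2
      exact hK K h3 h4
    refine ⟨fun x => if G.Adj x u then 0 else 1, fun x _ => by dsimp only; split_ifs <;> omega, ?_⟩
    intro x hx y hy hxy
    dsimp only
    split_ifs with h1 h2 h2
    · obtain ⟨K, h3, h4⟩ := clique_of_edge hl hG huv hD hdeg hno hx hy hxy h1 h2
      exact absurd h4 (hK K h3)
    · omega
    · omega
    · obtain ⟨K, h3, h4⟩ := clique_of_edge hl hG huv.symm (fun x hx => (hD x hx).symm) hdeg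
        (fun c hc a b => hno c hc b a) hx hy hxy ((hD x hx).resolve_left h1)
        ((hD y hy).resolve_left h2)
      exact absurd h4 (hK K h3)
  · push Not at hdeg
    obtain ⟨w, hw, hlt⟩ := hdeg
    obtain ⟨f, hf⟩ := ih (D.erase w) (erase_ssubset hw) (fun x hx => hD x (mem_of_mem_erase hx))
      (fun K h => hK K (h.trans (erase_subset _ _)))
    obtain ⟨a, ha, ha'⟩ := exists_mem_notMem_of_card_lt_card
      (s := (D.filter (G.Adj w)).image f) (t := range (l - 1)) (by
        have := card_image_le (s := D.filter (G.Adj w)) (f := f)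
        rw [card_range]
        omega)
    have ha2 : ∀ y ∈ D, G.Adj w y → f y ≠ a := fun y hy h e =>
      ha' (mem_image.mpr ⟨y, mem_filter.mpr ⟨hy, h⟩, e⟩)
    refine ⟨Function.update f w a, ?_, ?_⟩
    · intro x hx
      by_cases h : x = w
      · subst h; simpa using ha
      · rw [Function.update_of_ne h]
        exact hf.1 x (mem_erase.mpr ⟨h, hx⟩)
    · intro x hx y hy hxy
      by_cases h : x = w
      · subst h
        rw [Function.update_self, Function.update_of_ne hxy.ne']
        exact (ha2 y hy hxy).symm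
      · by_cases h' : y = w
        · subst h'
          rw [Function.update_self, Function.update_of_ne h]
          exact ha2 x hx hxy.symm
        · rw [Function.update_of_ne h, Function.update_of_ne h']
          exact hf.2 x (mem_erase.mpr ⟨h, hx⟩) y (mem_erase.mpr ⟨h', hy⟩) hxy

end Pool.Agent.MP_03ce49_co

end

-- part MP_03ce49_co.Extend
section

/-! Adding the two neighbourhoods of an edge costs at most `l - 1` new colours. -/

namespace Pool.Agent.MP_03ce49_co

open Finset

variable {V : Type*} [DecidableEq V] {G : SimpleGraph V}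

lemma clique_meets {l : ℕ} (hl : 4 ≤ l) (hG : NoCyc G l) {u v : V} {K : Finset V}
    (hK : G.IsNClique l K) (hX : ∀ x ∈ K, G.Adj x u ∨ G.Adj x v) : u ∈ K ∨ v ∈ K := by
  by_contra hcon
  push Not at hcon
  obtain ⟨a, ha, b, hb, c, hc, hab, hac, hbc⟩ := two_lt_card.mp
    (show 2 < K.card by have := hK.card_eq; omega)
  have key : ∀ w ∉ K, ∀ x ∈ K, ∀ y ∈ K, x ≠ y → G.Adj x w → G.Adj y w → False := by
    intro w hw x hx y hy hxy h1 h2
    exact ear hG hK hx hy hxy [w] (by simp) (by simpa using hw) (by simp) (by simp; omega)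
      (by simp [h1, h2.symm])
  rcases hX a ha with h1 | h1 <;> rcases hX b hb with h2 | h2 <;> rcases hX c hc with h3 | h3
  · exact key u hcon.1 a ha b hb hab h1 h2
  · exact key u hcon.1 a ha b hb hab h1 h2
  · exact key u hcon.1 a ha c hc hac h1 h3
  · exact key v hcon.2 b hb c hc hbc h2 h3
  · exact key u hcon.1 b hb c hc hbc h2 h3
  · exact key v hcon.2 a ha c hc hac h1 h3
  · exact key v hcon.2 a ha b hb hab h1 h2
  · exact key v hcon.2 a ha b hb hab h1 h2

lemma good_aux {l : ℕ} (hl : 4 ≤ l) (hG : NoCyc G l) {u v : V} (huv : G.Adj u v) {K : Finset V}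
    (hK : G.IsNClique l K) (hu : u ∈ K) {z : V} (hz : z ∈ K) (hzu : z ≠ u) (hzv : z ≠ v)
    {w : V} (hw : w ∉ K) (hzw : G.Adj z w) :
    ¬ (G.Adj w u ∨ G.Adj w v) ∧ ∀ x, (G.Adj x u ∨ G.Adj x v) → G.Adj w x → x = z := by
  have e1 : ∀ b ∈ K, z ≠ b → ¬ G.Adj w b := fun b hb hzb h =>
    ear hG hK hz hb hzb [w] (by simp) (by simpa using hw) (by simp) (by simp; omega)
      (by simp [hzw, h])
  have e2 : ∀ b ∈ K, z ≠ b → ∀ x ∉ K, G.Adj w x → ¬ G.Adj x b := fun b hb hzb x hx h h' =>
    ear hG hK hz hb hzb [w, x] (by simpa using h.ne) (by simp [hw, hx]) (by simp)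
      (by simp; omega) (by simp [hzw, h, h'])
  have hwX : ¬ (G.Adj w u ∨ G.Adj w v) := by
    rintro (h | h)
    · exact e1 u hu hzu h
    · by_cases hv : v ∈ K
      · exact e1 v hv hzv h
      · exact e2 u hu hzu v hv h huv.symm
  refine ⟨hwX, fun x hx hwx => ?_⟩
  by_contra hxz
  by_cases hxK : x ∈ K
  · exact e1 x hxK (Ne.symm hxz) hwx
  rcases hx with h | h
  · exact e2 u hu hzu x hxK hwx h
  · by_cases hv : v ∈ K
    · exact e2 v hv hzv x hxK hwx h
    · have hwv : w ≠ v := by
        rintro rfl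
        exact hwX (Or.inl huv.symm)
      exact ear hG hK hz hu hzu [w, x, v] (by simp [hwx.ne, hwv, h.ne]) (by simp [hw, hxK, hv])
        (by simp) (by simp; omega) (by simp [hzw, hwx, h, huv.symm])

lemma good {l : ℕ} (hl : 4 ≤ l) (hG : NoCyc G l) {u v : V} (huv : G.Adj u v) {K : Finset V}
    (hK : G.IsNClique l K) (hX : ∀ x ∈ K, G.Adj x u ∨ G.Adj x v) {z : V} (hz : z ∈ K)
    (hzu : z ≠ u) (hzv : z ≠ v) {w : V} (hw : w ∉ K) (hzw : G.Adj z w) :
    ¬ (G.Adj w u ∨ G.Adj w v) ∧ ∀ x, (G.Adj x u ∨ G.Adj x v) → G.Adj w x → x = z := by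
  rcases clique_meets hl hG hK hX with h | h
  · exact good_aux hl hG huv hK h hz hzu hzv hw hzw
  · obtain ⟨h1, h2⟩ := good_aux hl hG huv.symm hK h hz hzv hzu hw hzw
    exact ⟨fun h => h1 h.symm, fun x hx => h2 x hx.symm⟩

/-- the structure of a subset `D` of the two neighbourhoods -/
lemma exists_split {l : ℕ} (hl : 4 ≤ l) (hG : NoCyc G l) {u v : V} (huv : G.Adj u v)
    (D : Finset V) (hD : ∀ x ∈ D, G.Adj x u ∨ G.Adj x v) :
    ∃ Z ⊆ D, (∀ z ∈ Z, ∀ z' ∈ Z, ¬ G.Adj z z') ∧
      (∀ z ∈ Z, ∀ w, G.Adj z w → (G.Adj w u ∨ G.Adj w v) → w ∈ D) ∧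
      (∀ z ∈ Z, ∀ w, G.Adj z w → ¬ (G.Adj w u ∨ G.Adj w v) →
        ∀ x, (G.Adj x u ∨ G.Adj x v) → G.Adj w x → x = z) ∧
      ∃ g, Col G ((D \ Z : Finset V) : Set V) (l - 1) g := by
  classical
  set Gd : V → Prop := fun z => z ≠ u ∧ z ≠ v ∧ ∃ K ⊆ D, G.IsNClique l K ∧ z ∈ K with hGd
  obtain ⟨Z, ⟨hZD, hZg, hZi⟩, hmax⟩ := Set.exists_max_image
    {Z : Finset V | Z ⊆ D ∧ (∀ z ∈ Z, Gd z) ∧ ∀ z ∈ Z, ∀ z' ∈ Z, ¬ G.Adj z z'} card
    (D.powerset.finite_toSet.subset fun Z hZ => mem_powerset.mpr hZ.1) ⟨∅, by simp⟩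
  refine ⟨Z, hZD, hZi, ?_, ?_, ?_⟩
  · intro z hz w hzw hw
    obtain ⟨h1, h2, K, hKD, hK, hzK⟩ := hZg z hz
    by_contra hwD
    exact (good hl hG huv hK (fun x hx => hD x (hKD hx)) hzK h1 h2 (fun h => hwD (hKD h)) hzw).1 hw
  · intro z hz w hzw hw
    obtain ⟨h1, h2, K, hKD, hK, hzK⟩ := hZg z hz
    exact (good hl hG huv hK (fun x hx => hD x (hKD hx)) hzK h1 h2
      (fun h => hw (hD w (hKD h))) hzw).2
  · refine col_of_no_clique hl hG huv _ (fun x hx => hD x (mem_sdiff.mp hx).1) ?_
    intro K hKD hK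
    have hKD' : K ⊆ D := hKD.trans sdiff_subset
    obtain ⟨y, hy, hy'⟩ := exists_mem_notMem_of_card_lt_card (s := {u, v}) (t := K) (by
      have := hK.card_eq
      have := card_le_two (a := u) (b := v)
      omega)
    simp only [mem_insert, mem_singleton, not_or] at hy'
    have hyZ : y ∉ Z := (mem_sdiff.mp (hKD hy)).2
    have hna : ∀ z ∈ Z, ¬ G.Adj y z := by
      intro z hz h
      exact (good hl hG huv hK (fun x hx => hD x (hKD' hx)) hy hy'.1 hy'.2
        (fun h => (mem_sdiff.mp (hKD h)).2 hz) h).1 (hD z (hZD hz))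
    have := hmax (insert y Z) ⟨insert_subset (hKD' hy) hZD, ?_, ?_⟩
    · rw [card_insert_of_notMem hyZ] at this
      omega
    · intro z hz
      rcases mem_insert.mp hz with rfl | hz
      · exact ⟨hy'.1, hy'.2, K, hKD', hK, hy⟩
      · exact hZg z hz
    · intro z hz z' hz'
      rcases mem_insert.mp hz with e | h <;> rcases mem_insert.mp hz' with e' | h'
      · rw [e, e']; exact G.irrefl
      · rw [e]; exact hna z' h'
      · rw [e']; exact fun hh => hna z h hh.symm
      · exact hZi z h z' h'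

omit [DecidableEq V] in
/-- recolouring step: `Z` gets colour `b`, its neighbours of colour `b` get colour `a` -/
lemma step {X D Z : Set V} {n a b : ℕ} {f : V → ℕ} (hf : Col G D n f) (ha : a < n) (hb : b < n)
    (hab : a ≠ b) (hZi : ∀ z ∈ Z, ∀ z' ∈ Z, ¬ G.Adj z z')
    (hfar : ∀ z ∈ Z, ∀ w, G.Adj z w → w ∉ X → ∀ x ∈ X, G.Adj w x → x = z)
    (haX : ∀ x ∈ D, x ∉ Z → f x = a → x ∈ X)
    (hbX : ∀ z ∈ Z, ∀ y ∈ D, y ∈ X → y ∉ Z → G.Adj z y → f y ≠ b) :
    ∃ f', Col G (D ∪ Z) n f' ∧ (∀ z ∈ Z, f' z = b) ∧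
      ∀ x ∉ Z, f' x = f x ∨ (f x = b ∧ f' x = a) := by
  classical
  refine ⟨fun x => if x ∈ Z then b else if f x = b ∧ ∃ z ∈ Z, G.Adj z x then a else f x,
    ⟨?_, ?_⟩, fun z hz => by simp [hz], ?_⟩
  · intro x hx
    dsimp only
    split_ifs with h1 h2
    · exact hb
    · exact ha
    · exact hf.1 x (hx.resolve_right h1)
  · have k1 : ∀ x ∈ Z, ∀ y ∉ Z, G.Adj x y →
        b ≠ if f y = b ∧ ∃ z ∈ Z, G.Adj z y then a else f y := by
      intro x hx y _ hxy
      split_ifs with h
      · exact hab.symm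
      · exact fun e => h ⟨e.symm, x, hx, hxy⟩
    have k2 : ∀ x ∈ D, x ∉ Z → ∀ y ∈ D, y ∉ Z → G.Adj x y → (f x = b ∧ ∃ z ∈ Z, G.Adj z x) →
        a ≠ f y := by
      rintro x hx hxZ y hy hyZ hxy ⟨h1, z, hz, hzx⟩ e
      have := hfar z hz x hzx (fun h => hbX z hz x hx h hxZ hzx h1) y (haX y hy hyZ e.symm) hxy
      exact hyZ (this ▸ hz)
    intro x hx y hy hxy
    dsimp only
    by_cases h1 : x ∈ Z <;> by_cases h2 : y ∈ Z
    · exact absurd hxy (hZi x h1 y h2)
    · simp only [h1, h2, if_true, if_false]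
      exact k1 x h1 y h2 hxy
    · simp only [h1, h2, if_true, if_false]
      exact (k1 y h2 x h1 hxy.symm).symm
    · simp only [h1, h2, if_false]
      have hx' := hx.resolve_right h1
      have hy' := hy.resolve_right h2
      split_ifs with h3 h4 h4
      · exact absurd (h3.1.trans h4.1.symm) (hf.2 x hx' y hy' hxy)
      · exact k2 x hx' h1 y hy' h2 hxy h3
      · exact (k2 y hy' h2 x hx' h1 hxy.symm h4).symm
      · exact hf.2 x hx' y hy' hxy
  · intro x hx
    simp only [hx, if_false]
    split_ifs with h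
    · exact Or.inr ⟨h.1, rfl⟩
    · exact Or.inl rfl

lemma extend [Fintype V] {l : ℕ} (hl : 4 ≤ l) (hG : NoCyc G l) {u v : V} (huv : G.Adj u v)
    {D : Set V} {n : ℕ} (hn : 0 < n) {f : V → ℕ} (hf : Col G D n f) :
    ∃ f', Col G (D ∪ {x | G.Adj x u ∨ G.Adj x v}) (n + (l - 1)) f' ∧
      (∀ x ∈ D, f' x = f x ∨ f' x = n) ∧
      ∀ x ∉ D, (G.Adj x u ∨ G.Adj x v) → f' x = 0 ∨ n ≤ f' x := by
  classical
  set D' : Finset V := univ.filter fun x => (G.Adj x u ∨ G.Adj x v) ∧ x ∉ D with hD'
  have hm : ∀ x, x ∈ D' ↔ (G.Adj x u ∨ G.Adj x v) ∧ x ∉ D := by simp [hD']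
  obtain ⟨Z, hZD, hZi, hin, hfar, g, hg⟩ := exists_split hl hG huv D' fun x hx => ((hm x).mp hx).1
  have h0 : Col G (D ∪ ((D' \ Z : Finset V) : Set V)) (n + (l - 1))
      fun x => if x ∈ D then f x else n + g x := by
    constructor
    · intro x hx
      dsimp only
      split_ifs with h
      · have := hf.1 x h
        omega
      · have := hg.1 x (hx.resolve_left h)
        omega
    · intro x hx y hy hxy
      dsimp only
      split_ifs with h1 h2 h2
      · exact hf.2 x h1 y h2 hxy
      · have := hf.1 x h1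
        omega
      · have := hf.1 y h2
        omega
      · have := hg.2 x (hx.resolve_left h1) y (hy.resolve_left h2) hxy
        omega
  obtain ⟨f', h1, h2, h3⟩ := step (X := {x | G.Adj x u ∨ G.Adj x v}) (Z := (Z : Set V))
    (a := n) (b := 0) h0 (by omega) (by omega) (by omega) hZi hfar (by
      intro x hx _ e
      by_cases h : x ∈ D
      · have := hf.1 x h
        simp only [h, if_true] at e
        omega
      · exact ((hm x).mp (mem_sdiff.mp (hx.resolve_left h)).1).1) (by
      intro z hz y _ hy _ hzy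
      have := ((hm y).mp (hin z hz y hzy hy)).2
      simp only [this, if_false]
      omega)
  refine ⟨f', ?_, ?_, ?_⟩
  · have hsub : D ∪ {x | G.Adj x u ∨ G.Adj x v} ⊆ D ∪ ((D' \ Z : Finset V) : Set V) ∪ Z := by
      intro x hx
      by_cases h : x ∈ D
      · exact Or.inl (Or.inl h)
      · by_cases h' : x ∈ Z
        · exact Or.inr h'
        · exact Or.inl (Or.inr (mem_sdiff.mpr ⟨(hm x).mpr ⟨hx.resolve_left h, h⟩, h'⟩))
    exact ⟨fun x hx => h1.1 x (hsub hx), fun x hx y hy => h1.2 x (hsub hx) y (hsub hy)⟩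
  · intro x hx
    rcases h3 x (fun h => ((hm x).mp (hZD h)).2 hx) with h | h
    · left; simpa [hx] using h
    · exact Or.inr h.2
  · intro x hx _
    by_cases h' : x ∈ Z
    · exact Or.inl (h2 x h')
    · rcases h3 x h' with h | h
      · right
        simp only [hx, if_false] at h
        omega
      · exact Or.inr h.2.ge

lemma two_sets [Fintype V] {l : ℕ} (hl : 4 ≤ l) (hG : NoCyc G l) {u v u' v' : V}
    (huv : G.Adj u v) (huv' : G.Adj u' v') :
    ∃ f, Col G ({x | G.Adj x u ∨ G.Adj x v} ∪ {x | G.Adj x u' ∨ G.Adj x v'}) (2 * (l - 1)) f := by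
  classical
  set D : Finset V := univ.filter fun x => G.Adj x u ∨ G.Adj x v with hD
  have hm : ∀ x, x ∈ D ↔ (G.Adj x u ∨ G.Adj x v) := by simp [hD]
  obtain ⟨Z, hZD, hZi, -, hfar, g, hg⟩ := exists_split hl hG huv D fun x hx => (hm x).mp hx
  obtain ⟨f, hf, h1, h2⟩ := extend hl hG huv' (by omega) hg
  obtain ⟨f', h3, -⟩ := step (X := {x | G.Adj x u ∨ G.Adj x v})
    (Z := {z | z ∈ Z ∧ ¬ (G.Adj z u' ∨ G.Adj z v')}) (a := 1) (b := l) hf (by omega) (by omega)
    (by omega) (fun z hz z' hz' => hZi z hz.1 z' hz'.1) (fun z hz => hfar z hz.1) (by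
      intro x hx _ e
      by_cases h : x ∈ ((D \ Z : Finset V) : Set V)
      · exact (hm x).mp (mem_sdiff.mp h).1
      · have := h2 x h (hx.resolve_left h)
        omega) (by
      intro z hz y _ hy _ hzy
      have hy' : y ∈ ((D \ Z : Finset V) : Set V) :=
        mem_sdiff.mpr ⟨(hm y).mpr hy, fun h => hZi z hz.1 y h hzy⟩
      have := h1 y hy'
      have := hg.1 y hy'
      omega)
  refine ⟨f', ?_⟩
  rw [two_mul]
  have hsub : {x | G.Adj x u ∨ G.Adj x v} ∪ {x | G.Adj x u' ∨ G.Adj x v'} ⊆
      ((D \ Z : Finset V) : Set V) ∪ {x | G.Adj x u' ∨ G.Adj x v'} ∪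
        {z | z ∈ Z ∧ ¬ (G.Adj z u' ∨ G.Adj z v')} := by
    intro x hx
    by_cases h : G.Adj x u' ∨ G.Adj x v'
    · exact Or.inl (Or.inr h)
    · by_cases h' : x ∈ Z
      · exact Or.inr ⟨h', h⟩
      · exact Or.inl (Or.inl (mem_sdiff.mpr ⟨(hm x).mpr (hx.resolve_right h), h'⟩))
  exact ⟨fun x hx => h3.1 x (hsub hx), fun x hx y hy => h3.2 x (hsub hx) y (hsub hy)⟩

lemma extend_many [Fintype V] {l : ℕ} (hl : 4 ≤ l) (hG : NoCyc G l) (E : Finset (V × V))
    (hE : ∀ e ∈ E, G.Adj e.1 e.2) {D : Set V} {n : ℕ} (hn : 0 < n) {f : V → ℕ}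
    (hf : Col G D n f) :
    ∃ f', Col G (D ∪ {x | ∃ e ∈ E, G.Adj x e.1 ∨ G.Adj x e.2}) (n + E.card * (l - 1)) f' := by
  induction E using Finset.induction_on with
  | empty => exact ⟨f, by simpa using hf⟩
  | insert e E he ih =>
    obtain ⟨f', h⟩ := ih fun e he => hE e (mem_insert_of_mem he)
    obtain ⟨f'', h', -⟩ := extend hl hG (hE e (mem_insert_self _ _)) (by omega) h
    refine ⟨f'', ?_⟩
    rw [card_insert_of_notMem he, add_mul, one_mul, ← add_assoc]
    convert h' using 1
    ext x
    simp only [Set.mem_union, Set.mem_ofPred_eq, mem_insert, exists_eq_or_imp]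
    generalize (∃ a ∈ E, G.Adj x a.1 ∨ G.Adj x a.2) = P
    tauto

end Pool.Agent.MP_03ce49_co

end

-- part MP_03ce49_co.Haxell
section

/-! Haxell's condition for independent transversals, proved by edge deletion / explosion. -/

namespace Pool.Agent.MP_03ce49_co

open Finset

variable {W C : Type*}

/-- `t` picks, for every class in `A`, a vertex of `U` in that class, pairwise non-adjacent. -/
def IsIT (G : SimpleGraph W) (U : Set W) (cls : W → C) (A : Finset C) (t : C → W) : Prop :=
  (∀ c ∈ A, t c ∈ U ∧ cls (t c) = c) ∧ ∀ c ∈ A, ∀ d ∈ A, ¬ G.Adj (t c) (t d)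

/-- every vertex of `U` in a class of `S` is adjacent to an end of one of the edges `Z`. -/
def Dom (G : SimpleGraph W) (U : Set W) (cls : W → C) (S : Finset C) (Z : Finset (W × W)) : Prop :=
  (∀ e ∈ Z, G.Adj e.1 e.2) ∧ ∀ w ∈ U, cls w ∈ S → ∃ e ∈ Z, G.Adj w e.1 ∨ G.Adj w e.2

lemma haxell_aux [Finite W] [DecidableEq C] (n : ℕ) :
    ∀ (G : SimpleGraph W) (U : Set W) (cls : W → C) (A : Finset C) (c₀ : C),
      A.card + G.edgeSet.ncard ≤ n → c₀ ∈ A → (¬ ∃ t, IsIT G U cls A t) →
      (∃ t, IsIT G U cls (A.erase c₀) t) →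
      ∃ S ⊆ A, c₀ ∈ S ∧ ∃ Z : Finset (W × W), Z.card + 1 ≤ S.card ∧ Dom G U cls S Z := by
  classical
  induction n with
  | zero =>
    intro G U cls A c₀ hn hc
    have := card_pos.mpr ⟨_, hc⟩
    omega
  | succ n ih =>
    intro G U cls A c₀ hn hc hno ⟨t₀, ht₀⟩
    by_cases hemp : ∃ x ∈ U, cls x = c₀
    swap
    · refine ⟨{c₀}, by simpa using hc, by simp, ∅, by simp, by simp, ?_⟩
      intro w hw hcw
      exact absurd ⟨w, hw, by simpa using hcw⟩ hemp
    obtain ⟨x, hxU, hx⟩ := hemp
    have hedge : ∃ y, G.Adj x y := by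
      by_contra hcon
      push Not at hcon
      refine hno ⟨Function.update t₀ c₀ x, ?_, ?_⟩
      · intro c hcA
        by_cases h : c = c₀
        · subst h; simp [hxU, hx]
        · rw [Function.update_of_ne h]
          exact ht₀.1 c (mem_erase.mpr ⟨h, hcA⟩)
      · intro c hcA d hdA
        by_cases h : c = c₀
        · subst h; simp [hcon]
        · by_cases h' : d = c₀
          · subst h'
            rw [Function.update_self]
            exact fun hh => hcon _ hh.symm
          · rw [Function.update_of_ne h, Function.update_of_ne h']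
            exact ht₀.2 c (mem_erase.mpr ⟨h, hcA⟩) d (mem_erase.mpr ⟨h', hdA⟩)
    obtain ⟨y, hxy⟩ := hedge
    set G' := G.deleteEdges {s(x, y)} with hG'
    have hle : ∀ a b, G'.Adj a b → G.Adj a b := fun a b h => (SimpleGraph.deleteEdges_adj.mp h).1
    have hcard : G'.edgeSet.ncard < G.edgeSet.ncard := by
      refine Set.ncard_lt_ncard ?_ (Set.toFinite _)
      rw [hG', SimpleGraph.edgeSet_deleteEdges]
      exact Set.sdiff_singleton_ssubset.mpr hxy
    by_cases hdel : ∃ t, IsIT G' U cls A t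
    swap
    · obtain ⟨S, hSA, hcS, Z, hZ, hd⟩ := ih G' U cls A c₀ (by omega) hc hdel
        ⟨t₀, ht₀.1, fun c hc d hd h => ht₀.2 c hc d hd (hle _ _ h)⟩
      refine ⟨S, hSA, hcS, Z, hZ, fun e he => hle _ _ (hd.1 e he), fun w hw hcw => ?_⟩
      obtain ⟨e, he, h⟩ := hd.2 w hw hcw
      exact ⟨e, he, h.imp (hle _ _) (hle _ _)⟩
    obtain ⟨t, ht⟩ := hdel
    have hadj : ∀ a b, G.Adj a b → ¬ G'.Adj a b → (a = x ∧ b = y) ∨ (a = y ∧ b = x) := by
      intro a b h h'
      rw [hG', SimpleGraph.deleteEdges_adj] at h'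
      have : s(a, b) = s(x, y) := by
        by_contra hne
        exact h' ⟨h, hne⟩
      exact Sym2.eq_iff.mp this
    have hboth : ∃ b ∈ A, t c₀ = x ∧ t b = y := by
      by_contra hcon
      refine hno ⟨t, ht.1, fun c hcA d hdA h => hcon ?_⟩
      rcases hadj _ _ h (ht.2 c hcA d hdA) with ⟨h1, h2⟩ | ⟨h1, h2⟩
      · have : c = c₀ := by rw [← (ht.1 c hcA).2, h1, hx]
        exact ⟨d, hdA, this ▸ h1, h2⟩
      · have : d = c₀ := by rw [← (ht.1 d hdA).2, h2, hx]
        exact ⟨c, hcA, this ▸ h2, h1⟩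
    obtain ⟨b, hbA, htx, hty⟩ := hboth
    have hyU : y ∈ U := hty ▸ (ht.1 b hbA).1
    have hyb : cls y = b := hty ▸ (ht.1 b hbA).2
    have hbc : b ≠ c₀ := by
      rintro rfl
      exact hxy.ne (htx.symm.trans hty)
    set U' : Set W := {w | w ∈ U ∧ ¬ G.Adj w x ∧ ¬ G.Adj w y} with hU'
    set cls' : W → C := fun w => if cls w = b then c₀ else cls w with hcls'
    have hcA' : c₀ ∈ A.erase b := mem_erase.mpr ⟨hbc.symm, hc⟩
    have hno' : ¬ ∃ s, IsIT G U' cls' (A.erase b) s := by
      rintro ⟨s, hs⟩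
      have hs1 : ∀ c ∈ A, c ≠ b → c ≠ c₀ → s c ∈ U' ∧ cls (s c) = c := by
        intro c hcA h1 h2
        obtain ⟨h3, h4⟩ := hs.1 c (mem_erase.mpr ⟨h1, hcA⟩)
        refine ⟨h3, ?_⟩
        simp only [hcls'] at h4
        split_ifs at h4 with h5
        · exact absurd h4.symm h2
        · exact h4
      obtain ⟨h3, h4⟩ := hs.1 c₀ hcA'
      by_cases h5 : cls (s c₀) = b
      · refine hno ⟨fun c => if c = c₀ then x else if c = b then s c₀ else s c, ?_, ?_⟩
        · intro c hcA
          by_cases h1 : c = c₀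
          · simp [h1, hxU, hx]
          · by_cases h2 : c = b
            · simp only [h2, hbc, if_false, if_true]
              exact ⟨h3.1, h5⟩
            · simp only [h1, h2, if_false]
              exact ⟨(hs1 c hcA h2 h1).1.1, (hs1 c hcA h2 h1).2⟩
        · have key : ∀ c ∈ A, c ≠ c₀ → ∃ c' ∈ A.erase b,
              (if c = c₀ then x else if c = b then s c₀ else s c) = s c' := by
            intro c hcA h1
            by_cases h2 : c = b
            · exact ⟨c₀, hcA', by simp [h2, hbc]⟩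
            · exact ⟨c, mem_erase.mpr ⟨h2, hcA⟩, by simp [h1, h2]⟩
          intro c hcA d hdA
          by_cases h1 : c = c₀
          · by_cases h2 : d = c₀
            · simp [h1, h2]
            · obtain ⟨d', hd', e⟩ := key d hdA h2
              simp only [e]
              simp only [h1, if_true]
              exact fun h => (hs.1 d' hd').1.2.1 h.symm
          · obtain ⟨c', hc', e⟩ := key c hcA h1
            simp only [e]
            by_cases h2 : d = c₀
            · simp only [h2, if_true]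
              exact (hs.1 c' hc').1.2.1
            · obtain ⟨d', hd', e'⟩ := key d hdA h2
              simp only [e']
              exact hs.2 c' hc' d' hd'
      · have h6 : cls (s c₀) = c₀ := by simpa [hcls', h5] using h4
        refine hno ⟨Function.update s b y, ?_, ?_⟩
        · intro c hcA
          by_cases h1 : c = b
          · subst h1; simp [hyU, hyb]
          · rw [Function.update_of_ne h1]
            by_cases h2 : c = c₀
            · subst h2; exact ⟨h3.1, h6⟩
            · exact ⟨(hs1 c hcA h1 h2).1.1, (hs1 c hcA h1 h2).2⟩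
        · intro c hcA d hdA
          by_cases h1 : c = b
          · by_cases h2 : d = b
            · simp [h1, h2]
            · rw [h1, Function.update_self, Function.update_of_ne h2]
              exact fun h => (hs.1 d (mem_erase.mpr ⟨h2, hdA⟩)).1.2.2 h.symm
          · by_cases h2 : d = b
            · rw [h2, Function.update_self, Function.update_of_ne h1]
              exact (hs.1 c (mem_erase.mpr ⟨h1, hcA⟩)).1.2.2
            · rw [Function.update_of_ne h1, Function.update_of_ne h2]
              exact hs.2 c (mem_erase.mpr ⟨h1, hcA⟩) d (mem_erase.mpr ⟨h2, hdA⟩)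
    have hne : ∀ c ∈ A, c ≠ b → c ≠ c₀ → t c ≠ x ∧ t c ≠ y := by
      intro c hcA h1 h2
      constructor
      · intro h
        exact h2 (by rw [← (ht.1 c hcA).2, h, hx])
      · intro h
        exact h1 (by rw [← (ht.1 c hcA).2, h, hyb])
    have hyes : ∃ s, IsIT G U' cls' ((A.erase b).erase c₀) s := by
      refine ⟨t, ?_, ?_⟩
      · intro c hc'
        obtain ⟨h2, h⟩ := mem_erase.mp hc'
        obtain ⟨h1, hcA⟩ := mem_erase.mp h
        obtain ⟨n1, n2⟩ := hne c hcA h1 h2
        refine ⟨⟨(ht.1 c hcA).1, fun h => ?_, fun h => ?_⟩, ?_⟩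
        · have := ht.2 c hcA c₀ hc
          rw [htx] at this
          rcases hadj _ _ h this with ⟨h, _⟩ | ⟨h, _⟩
          · exact n1 h
          · exact n2 h
        · have := ht.2 c hcA b hbA
          rw [hty] at this
          rcases hadj _ _ h this with ⟨h, _⟩ | ⟨h, _⟩
          · exact n1 h
          · exact n2 h
        · simp [hcls', (ht.1 c hcA).2, h1]
      · intro c hc' d hd' h
        obtain ⟨h2, h'⟩ := mem_erase.mp hc'
        obtain ⟨h1, hcA⟩ := mem_erase.mp h'
        obtain ⟨n1, n2⟩ := hne c hcA h1 h2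
        rcases hadj _ _ h (ht.2 c hcA d (mem_of_mem_erase (mem_of_mem_erase hd'))) with
          ⟨h, _⟩ | ⟨h, _⟩
        · exact n1 h
        · exact n2 h
    have hcardA : (A.erase b).card + 1 = A.card := card_erase_add_one hbA
    obtain ⟨S, hSA, hcS, Z, hZ, hd⟩ := ih G U' cls' (A.erase b) c₀ (by omega) hcA' hno' hyes
    have hbS : b ∉ S := fun h => (mem_erase.mp (hSA h)).1 rfl
    refine ⟨insert b S, insert_subset hbA (hSA.trans (erase_subset _ _)), mem_insert_of_mem hcS,
      insert (x, y) Z, ?_, ?_, ?_⟩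
    · have := card_insert_le (x, y) Z
      rw [card_insert_of_notMem hbS]
      omega
    · intro e he
      rcases mem_insert.mp he with rfl | he
      · exact hxy
      · exact hd.1 e he
    · intro w hw hcw
      by_cases h : G.Adj w x ∨ G.Adj w y
      · exact ⟨(x, y), mem_insert_self _ _, h⟩
      · push Not at h
        obtain ⟨e, he, h'⟩ := hd.2 w ⟨hw, h⟩ (by
          simp only [hcls']
          split_ifs with h5
          · exact hcS
          · exact (mem_insert.mp hcw).resolve_left h5)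
        exact ⟨e, mem_insert_of_mem he, h'⟩

theorem haxell [Finite W] [Nonempty W] [DecidableEq C] (G : SimpleGraph W) (cls : W → C)
    (A : Finset C) (hno : ¬ ∃ t, IsIT G Set.univ cls A t) :
    ∃ S ⊆ A, ∃ Z : Finset (W × W), Z.card + 1 ≤ S.card ∧ Dom G Set.univ cls S Z := by
  induction A using Finset.induction_on with
  | empty => exact absurd ⟨fun _ => Classical.arbitrary W, by simp, by simp⟩ hno
  | insert c A hc ih =>
    by_cases h : ∃ t, IsIT G Set.univ cls A t
    · obtain ⟨S, h1, _, h2⟩ := haxell_aux _ G Set.univ cls (insert c A) c le_rfl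
        (mem_insert_self _ _) hno (by rwa [erase_insert hc])
      exact ⟨S, h1, h2⟩
    · obtain ⟨S, h1, h2⟩ := ih h
      exact ⟨S, h1.trans (subset_insert _ _), h2⟩

end Pool.Agent.MP_03ce49_co

end

-- part MP_03ce49_co.Main
section

/-! A rainbow set of `χ(G)` vertices that induces an `(l - 1)`-colourable subgraph. -/

namespace Pool.Agent.MP_03ce49_co

open Finset

variable {V : Type*} [DecidableEq V] [Fintype V] {G : SimpleGraph V} {α : Type*} [DecidableEq α]

lemma no_cover [Nonempty V] {l k : ℕ} (hl : 4 ≤ l) (hG : NoCyc G l) (hk : l + 1 ≤ k)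
    (hmin : ∀ n f, Col G Set.univ n f → k ≤ n) (σ : G.Coloring α) {S : Finset α}
    (hS : S ⊆ univ.image σ) (E : Finset (V × V)) (hE : ∀ e ∈ E, G.Adj e.1 e.2)
    (hcov : ∀ x, σ x ∈ S → ∃ e ∈ E, G.Adj x e.1 ∨ G.Adj x e.2)
    (hc : E.card * (l - 1) + 1 + (univ.image σ).card ≤ S.card + k) : False := by
  classical
  by_cases hSA : ∃ x, σ x ∉ S
  · obtain ⟨x₀, hx₀⟩ := hSA
    set B := univ.image σ \ S with hB
    have hmem : ∀ x, σ x ∉ S → σ x ∈ B := fun x hx =>
      mem_sdiff.mpr ⟨mem_image_of_mem _ (mem_univ _), hx⟩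
    have hf : Col G {x | σ x ∉ S} B.card
        fun x => if h : σ x ∈ B then (B.equivFin ⟨σ x, h⟩ : ℕ) else 0 := by
      constructor
      · intro x hx
        simp only [hmem x hx, dif_pos]
        exact Fin.is_lt _
      · intro x hx y hy hxy
        simp only [hmem x hx, hmem y hy, dif_pos]
        intro e
        have := B.equivFin.injective (Fin.ext e)
        exact σ.valid hxy (by simpa using this)
    obtain ⟨f', h⟩ := extend_many hl hG E hE (card_pos.mpr ⟨_, hmem x₀ hx₀⟩) hf
    have huniv : {x | σ x ∉ S} ∪ {x | ∃ e ∈ E, G.Adj x e.1 ∨ G.Adj x e.2} = Set.univ := by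
      refine Set.eq_univ_of_forall fun x => ?_
      by_cases hx : σ x ∈ S
      · exact Or.inr (hcov x hx)
      · exact Or.inl hx
    rw [huniv] at h
    have h1 := hmin _ _ h
    have h2 := card_sdiff_add_card_eq_card hS
    rw [← hB] at h2
    omega
  push Not at hSA
  have h2 := card_le_card hS
  by_cases hE1 : E.card ≤ 1
  · obtain ⟨f', h⟩ := extend_many hl hG E hE (D := ∅) (n := 1) one_pos (f := fun _ => 0)
      ⟨by simp, by simp⟩
    have huniv : ∅ ∪ {x | ∃ e ∈ E, G.Adj x e.1 ∨ G.Adj x e.2} = Set.univ :=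
      Set.eq_univ_of_forall fun x => Or.inr (hcov x (hSA x))
    rw [huniv] at h
    have h1 := hmin _ _ h
    have := Nat.mul_le_mul_right (l - 1) hE1
    omega
  · obtain ⟨e, he, e', he', hne⟩ := one_lt_card.mp (not_le.mp hE1)
    obtain ⟨f, hf⟩ := two_sets hl hG (hE e he) (hE e' he')
    obtain ⟨f', h⟩ := extend_many hl hG ((E.erase e).erase e')
      (fun a ha => hE a (mem_of_mem_erase (mem_of_mem_erase ha))) (by omega) hf
    have huniv : ({x | G.Adj x e.1 ∨ G.Adj x e.2} ∪ {x | G.Adj x e'.1 ∨ G.Adj x e'.2}) ∪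
        {x | ∃ a ∈ (E.erase e).erase e', G.Adj x a.1 ∨ G.Adj x a.2} = Set.univ := by
      refine Set.eq_univ_of_forall fun x => ?_
      obtain ⟨a, ha, hx⟩ := hcov x (hSA x)
      by_cases h1 : a = e
      · exact Or.inl (Or.inl (h1 ▸ hx))
      · by_cases h2 : a = e'
        · exact Or.inl (Or.inr (h2 ▸ hx))
        · exact Or.inr ⟨a, mem_erase.mpr ⟨h2, mem_erase.mpr ⟨h1, ha⟩⟩, hx⟩
    rw [huniv] at h
    have h1 := hmin _ _ h
    have e1 := card_erase_add_one he
    have e2 := card_erase_add_one (mem_erase.mpr ⟨hne.symm, he'⟩ : e' ∈ E.erase e)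
    rw [← e1, ← e2, add_mul, add_mul] at hc
    omega

/-- `q` disjoint copies of `G` and `j` copies of the complete multipartite graph of `σ` -/
def layers (G : SimpleGraph V) (σ : G.Coloring α) (q j : ℕ) :
    SimpleGraph (V × (Fin q ⊕ Fin j)) where
  Adj a b := a.2 = b.2 ∧ σ a.1 ≠ σ b.1 ∧ (a.2.isLeft → G.Adj a.1 b.1)
  symm := ⟨fun _ _ h => ⟨h.1.symm, h.2.1.symm, fun h' => (h.2.2 (h.1 ▸ h')).symm⟩⟩
  loopless := ⟨fun _ h => h.2.1 rfl⟩

lemma exists_rainbow [Nonempty V] {l k : ℕ} (hl : 4 ≤ l) (hG : NoCyc G l) (hk : l + 1 ≤ k)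
    (hmin : ∀ n f, Col G Set.univ n f → k ≤ n) (σ : G.Coloring α)
    (hp : k ≤ (univ.image σ).card) :
    ∃ T : Finset V, k ≤ (T.image σ).card ∧ ∃ g, Col G (T : Set V) (l - 1) g := by
  classical
  obtain ⟨j, hj⟩ := Nat.exists_eq_add_of_le hp
  set A := univ.image σ with hA
  have : Nonempty (Fin (l - 1)) := ⟨⟨0, by omega⟩⟩
  by_cases hIT : ∃ t, IsIT (layers G σ (l - 1) j) Set.univ (fun a => σ a.1) A t
  · obtain ⟨t, h1, h2⟩ := hIT
    set A' := A.filter fun c => (t c).2.isLeft with hA'
    have hcard : (A.filter fun c => ¬ (t c).2.isLeft).card ≤ j := by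
      have : (A.filter fun c => ¬ (t c).2.isLeft).card ≤
          ((univ : Finset (Fin j)).image (Sum.inr : Fin j → Fin (l - 1) ⊕ Fin j)).card := by
        refine card_le_card_of_injOn (fun c => (t c).2) ?_ ?_
        · intro c hc
          have := (mem_filter.mp hc).2
          cases h : (t c).2 with
          | inl a => simp [h] at this
          | inr a => simp [h]
        · intro c hc d hd e
          obtain ⟨hcA, hc'⟩ := mem_filter.mp hc
          obtain ⟨hdA, -⟩ := mem_filter.mp hd
          by_contra hne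
          refine h2 c hcA d hdA ⟨e, ?_, fun h => absurd h hc'⟩
          exact fun e' => hne ((h1 c hcA).2.symm.trans (e'.trans (h1 d hdA).2))
      have h3 := card_image_le (s := (univ : Finset (Fin j)))
        (f := (Sum.inr : Fin j → Fin (l - 1) ⊕ Fin j))
      rw [card_univ, Fintype.card_fin] at h3
      omega
    have hsplit := card_filter_add_card_filter_not (s := A) fun c => (t c).2.isLeft
    rw [← hA'] at hsplit
    refine ⟨A'.image fun c => (t c).1, ?_, fun x => (t (σ x)).2.elim Fin.val fun _ => 0, ?_, ?_⟩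
    · have : A' ⊆ (A'.image fun c => (t c).1).image σ := fun c hc =>
        mem_image.mpr ⟨_, mem_image_of_mem _ hc, (h1 c (mem_filter.mp hc).1).2⟩
      have := card_le_card this
      omega
    · intro x _
      dsimp only
      cases (t (σ x)).2 with
      | inl a => exact a.is_lt
      | inr a => simp; omega
    · intro x hx y hy hxy e
      obtain ⟨c, hc, rfl⟩ := mem_image.mp hx
      obtain ⟨d, hd, rfl⟩ := mem_image.mp hy
      obtain ⟨hcA, hc'⟩ := mem_filter.mp hc
      obtain ⟨hdA, hd'⟩ := mem_filter.mp hd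
      have e1 : σ (t c).1 = c := (h1 c hcA).2
      have e2 : σ (t d).1 = d := (h1 d hdA).2
      simp only [e1, e2] at e
      refine h2 c hcA d hdA ⟨?_, σ.valid hxy, fun _ => hxy⟩
      obtain ⟨a, ha⟩ := Sum.isLeft_iff.mp hc'
      obtain ⟨b, hb⟩ := Sum.isLeft_iff.mp hd'
      rw [ha, hb] at e ⊢
      exact congrArg _ (Fin.ext e)
  exfalso
  obtain ⟨S, hSA, Z, hZ, hd1, hd2⟩ := haxell _ _ A hIT
  set m : Fin (l - 1) ⊕ Fin j → ℕ := fun s => (Z.filter fun e => e.1.2 = s).card with hm
  have hsum : Z.card = ∑ s, m s := card_eq_sum_card_fiberwise fun _ _ => mem_univ _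
  have hdom : ∀ x, σ x ∈ S → ∀ s, ∃ e ∈ Z.filter fun e => e.1.2 = s,
      (layers G σ (l - 1) j).Adj (x, s) e.1 ∨ (layers G σ (l - 1) j).Adj (x, s) e.2 := by
    intro x hx s
    obtain ⟨e, he, h⟩ := hd2 (x, s) trivial hx
    refine ⟨e, mem_filter.mpr ⟨he, ?_⟩, h⟩
    rcases h with h | h
    · exact h.1.symm
    · exact (hd1 e he).1.trans h.1.symm
  obtain ⟨c, hc⟩ := card_pos.mp (show 0 < S.card by omega)
  obtain ⟨x₀, -, hx₀⟩ := mem_image.mp (hSA hc)
  have hright : j ≤ ∑ b : Fin j, m (Sum.inr b) := by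
    have := card_nsmul_le_sum (univ : Finset (Fin j)) (fun b => m (Sum.inr b)) 1 fun b _ => by
      obtain ⟨e, he, -⟩ := hdom x₀ (hx₀ ▸ hc) (Sum.inr b)
      exact card_pos.mpr ⟨e, he⟩
    simpa using this
  obtain ⟨a, -, ha⟩ := exists_min_image (univ : Finset (Fin (l - 1))) (fun a => m (Sum.inl a))
    univ_nonempty
  have hleft := card_nsmul_le_sum _ _ _ ha
  rw [card_univ, Fintype.card_fin, smul_eq_mul, mul_comm] at hleft
  rw [Fintype.sum_sum_type] at hsum
  refine no_cover hl hG hk hmin σ hSA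
    ((Z.filter fun e => e.1.2 = Sum.inl a).image fun e => (e.1.1, e.2.1)) ?_ ?_ ?_
  · intro e he
    obtain ⟨e', he', rfl⟩ := mem_image.mp he
    obtain ⟨h1, h2⟩ := mem_filter.mp he'
    exact (hd1 e' h1).2.2 (by simp [h2])
  · intro x hx
    obtain ⟨e, he, h⟩ := hdom x hx (Sum.inl a)
    exact ⟨_, mem_image_of_mem _ he, h.imp (fun h => h.2.2 rfl) fun h => h.2.2 rfl⟩
  · have := Nat.mul_le_mul_right (l - 1) (card_image_le
      (s := Z.filter fun e => e.1.2 = Sum.inl a) (f := fun e => (e.1.1, e.2.1)))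
    rw [← hA]
    simp only [hm] at hleft hright hsum
    omega

lemma exists_pair {l : ℕ} (hl : 4 ≤ l) (hG : NoCyc G l)
    (hK : IsEmpty (G ≃g (⊤ : SimpleGraph (Fin l)))) (σ : G.Coloring α)
    (hp : l ≤ (univ.image σ).card) : ∃ x y, σ x ≠ σ y ∧ ¬ G.Adj x y := by
  classical
  by_contra hcon
  push Not at hcon
  obtain ⟨K₀, -, hinj, himg⟩ := exists_subset_injOn_image_eq_of_surjOn (f := σ) Set.univ
    (univ.image σ) (fun c hc => by
      obtain ⟨x, -, hx⟩ := mem_image.mp hc
      exact ⟨x, trivial, hx⟩)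
  obtain ⟨K, hKK, hKc⟩ := exists_subset_card_eq (s := K₀) (n := l) (by
    rw [← card_image_of_injOn hinj, himg]; exact hp)
  have hK' : G.IsNClique l K := ⟨fun x hx y hy hxy =>
    hcon x y fun e => hxy (hinj (hKK hx) (hKK hy) e), hKc⟩
  by_cases hall : ∀ w, w ∈ K
  · have htop : G = ⊤ := by
      ext x y
      exact ⟨fun h => h.ne, fun h => hK'.isClique (hall x) (hall y) h⟩
    have hc : Fintype.card V = l := by
      rw [← hKc, eq_univ_of_forall hall, card_univ]
    subst htop
    exact hK.false (SimpleGraph.Iso.completeGraph (Fintype.equivFinOfCardEq hc))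
  push Not at hall
  obtain ⟨w, hw⟩ := hall
  obtain ⟨a, ha, b, hb, c, hc, hab, hac, hbc⟩ := two_lt_card.mp (show 2 < K.card by omega)
  have key : ∀ x ∈ K, ∀ y ∈ K, x ≠ y → σ x ≠ σ w → σ y ≠ σ w → False := by
    intro x hx y hy hxy h1 h2
    exact ear hG hK' hx hy hxy [w] (by simp) (by simpa using hw) (by simp) (by simp; omega)
      (by simp [hcon _ _ h1, (hcon _ _ h2).symm])
  by_cases h1 : σ a = σ w
  · exact key b hb c hc hbc (fun e => hab (hinj (hKK ha) (hKK hb) (h1.trans e.symm)))
      fun e => hac (hinj (hKK ha) (hKK hc) (h1.trans e.symm))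
  · by_cases h2 : σ b = σ w
    · exact key a ha c hc hac h1 fun e => hbc (hinj (hKK hb) (hKK hc) (h2.trans e.symm))
    · exact key a ha b hb hab h1 h2

omit [DecidableEq V] [Fintype V] in
lemma noCyc_of_walks {l : ℕ} (hl : 2 ≤ l)
    (h : ∀ (v : V) (c : G.Walk v v), c.IsCycle → c.length ≠ l + 1) : NoCyc G l := by
  intro a L h1 h2 h3
  let p : G.Walk a a := (SimpleGraph.Walk.ofSupport (a :: L ++ [a]) (by simp) h3).copy rfl
    (by simp)
  have hs : p.support = a :: L ++ [a] := by
    rw [SimpleGraph.Walk.support_copy, SimpleGraph.Walk.support_ofSupport]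
  have hlen : p.length = l + 1 := by
    rw [SimpleGraph.Walk.length_copy, SimpleGraph.Walk.length_ofSupport]
    simp [h1]
  have hnil : ¬ p.Nil := by
    rw [SimpleGraph.Walk.not_nil_iff_lt_length]
    omega
  refine h a p (SimpleGraph.Walk.isCycle_iff_isPath_tail_and_le_length.mpr ⟨?_, by omega⟩) hlen
  rw [SimpleGraph.Walk.isPath_def, SimpleGraph.Walk.support_tail_of_not_nil _ hnil, hs]
  simp only [List.cons_append, List.tail_cons]
  exact (List.perm_append_singleton a L).nodup_iff.mpr h2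

omit [DecidableEq V] [Fintype V] in
lemma chi_le_of_col {D : Set V} {n : ℕ} {f : V → ℕ} (h : Col G D n f) :
    (G.induce D).chromaticNumber.toNat ≤ n := by
  have : (G.induce D).Colorable n :=
    ⟨SimpleGraph.Coloring.mk (fun x => ⟨f x, h.1 x x.2⟩) fun {x y} hxy e =>
      h.2 x x.2 y y.2 hxy (congrArg Fin.val e)⟩
  exact ENat.toNat_le_of_le_natCast this.chromaticNumber_le

theorem main [Nonempty V] {l : ℕ} (hl : 4 ≤ l) (hG : NoCyc G l)
    (hK : IsEmpty (G ≃g (⊤ : SimpleGraph (Fin l)))) (σ : G.Coloring α) :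
    ∃ T : Finset V, T.Nonempty ∧ G.chromaticNumber.toNat + 1 +
      (G.induce (T : Set V)).chromaticNumber.toNat ≤ (T.image σ).card + l := by
  classical
  set k := G.chromaticNumber.toNat with hk
  have hmin : ∀ n f, Col G Set.univ n f → k ≤ n := fun n f h =>
    ENat.toNat_le_of_le_natCast (SimpleGraph.Colorable.chromaticNumber_le
      ⟨SimpleGraph.Coloring.mk (fun x => (⟨f x, h.1 x trivial⟩ : Fin n)) fun {x y} hxy e =>
        h.2 x trivial y trivial hxy (congrArg Fin.val e)⟩)
  have hp : k ≤ (univ.image σ).card := by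
    refine hmin _ (fun x => ((univ.image σ).equivFin ⟨σ x, mem_image_of_mem _ (mem_univ _)⟩ : ℕ))
      ⟨fun x _ => Fin.is_lt _, fun x _ y _ hxy e => ?_⟩
    have := (univ.image σ).equivFin.injective (Fin.ext e)
    exact σ.valid hxy (by simpa using this)
  rcases lt_trichotomy k l with h | h | h
  · obtain ⟨x⟩ := ‹Nonempty V›
    have := chi_le_of_col (G := G) (D := (({x} : Finset V) : Set V)) (n := 1) (f := fun _ => 0)
      ⟨by simp, by simp⟩
    refine ⟨{x}, by simp, ?_⟩
    rw [image_singleton, card_singleton]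
    omega
  · obtain ⟨x, y, h1, h2⟩ := exists_pair hl hG hK σ (h ▸ hp)
    have := chi_le_of_col (G := G) (D := (({x, y} : Finset V) : Set V)) (n := 1) (f := fun _ => 0)
      ⟨by simp, by simpa [h2] using fun h : G.Adj y x => h2 h.symm⟩
    refine ⟨{x, y}, by simp, ?_⟩
    rw [image_insert, image_singleton, card_pair h1]
    omega
  · obtain ⟨T, h1, g, hg⟩ := exists_rainbow hl hG h hmin σ hp
    have := chi_le_of_col hg
    refine ⟨T, image_nonempty.mp (card_pos.mp (show 0 < (T.image σ).card by omega)), by omega⟩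

end Pool.Agent.MP_03ce49_co

end
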